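import Pool.Agent.MP_f6b137_pr.H74.Spec

/-! Polynomial approximation of the inverse square root of the density. -/

namespace Pool.Agent.MP_f6b137_pr.H5

open MeasureTheory Filter Polynomial H74
open scoped Real

theorem rowDENS : RowDENS := by
  intro μ hfin _ hac hca
  let ρ : ℝ → ℝ := fun θ => √((μ.rnDeriv volume θ).toReal)
  have hm : Measurable ρ := (Measure.measurable_rnDeriv μ volume).ennreal_toReal.sqrt
  have hsq : ∀ θ, ρ θ ^ 2 = (μ.rnDeriv volume θ).toReal := fun θ =>
    Real.sq_sqrt ENNReal.toReal_nonneg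
  have hset : ∀ (g : ℝ → ℝ) (T : Set ℝ), MeasurableSet T →
      ∫ θ in T, g θ ∂μ = ∫ θ in T, ρ θ ^ 2 * g θ := by
    intro g T hT
    simp only [hsq]
    exact (setIntegral_rnDeriv_smul hac hT).symm
  refine ⟨ρ, hm, fun θ => Real.sqrt_nonneg _, ?_, fun g T hT _ => hset g T hT, fun η hη => ?_⟩
  · simp only [hsq]
    exact Measure.integrable_toReal_rnDeriv.integrableOn
  have hne : ∀ᵐ θ ∂volume.restrict (Set.Icc 0 π), ρ θ ≠ 0 := by
    filter_upwards [hca.ae_le (Measure.rnDeriv_pos hac),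
      ae_restrict_of_ae (Measure.rnDeriv_lt_top μ volume)] with θ h1 h2
    exact (Real.sqrt_pos.2 (ENNReal.toReal_pos h1.ne' h2.ne)).ne'
  let ψ : ℝ → ℝ := (Set.Icc 0 π).indicator fun θ => (ρ θ)⁻¹
  have hψm : Measurable ψ := hm.inv.indicator measurableSet_Icc
  have hψ : MemLp ψ 2 μ := by
    rw [memLp_two_iff_integrable_sq hψm.aestronglyMeasurable,
      ← integrable_toReal_rnDeriv_mul_iff hac]
    have h1 : Integrable ((Set.Icc 0 π).indicator fun _ => (1 : ℝ)) volume :=
      (integrable_indicator_iff measurableSet_Icc).2 (integrableOn_const (by simp))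
    refine h1.mono' ((Measure.measurable_rnDeriv μ volume).ennreal_toReal.mul
      (hψm.pow_const 2)).aestronglyMeasurable (ae_of_all _ fun θ => ?_)
    rw [← hsq, ← mul_pow]
    by_cases hθ : θ ∈ Set.Icc 0 π
    · simp only [ψ, Set.indicator_of_mem hθ]
      by_cases h0 : ρ θ = 0
      · simp [h0]
      · simp [mul_inv_cancel₀ h0]
    · simp [ψ, Set.indicator_of_notMem hθ]
  have h2 : ENNReal.ofReal 2 = 2 := by simp
  obtain ⟨g, hg, hg2⟩ := MemLp.exists_boundedContinuous_integral_rpow_sub_le (μ := μ) (p := 2)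
    two_pos (h2 ▸ hψ) (show 0 < η / 4 by positivity)
  rw [h2] at hg2
  have hM : 0 ≤ μ.real Set.univ := measureReal_nonneg
  set M := μ.real Set.univ
  obtain ⟨q, hq⟩ := exists_polynomial_near_of_continuousOn (-1) 1 (fun x => g (Real.arccos x))
    (g.continuous.comp Real.continuous_arccos).continuousOn (√(η / (4 * (M + 1))))
    (by positivity)
  refine ⟨q, ?_⟩
  have hi : Integrable (fun θ => (ψ θ - g θ) ^ 2) μ := (hψ.sub hg2).integrable_sq
  have hg' : ∫ θ, (ψ θ - g θ) ^ 2 ∂μ ≤ η / 4 := by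
    refine le_of_eq_of_le (integral_congr_ae (ae_of_all _ fun θ => ?_)) hg
    simp
  have hi2 : Integrable (fun θ => 2 * (ψ θ - g θ) ^ 2 + 2 * (η / (4 * (M + 1)))) μ :=
    (hi.const_mul 2).add (integrable_const _)
  calc ∫ θ in Set.Icc 0 π, (1 - ρ θ * q.eval (Real.cos θ)) ^ 2
      = ∫ θ in Set.Icc 0 π, ρ θ ^ 2 * (ψ θ - q.eval (Real.cos θ)) ^ 2 := by
        refine integral_congr_ae ?_
        filter_upwards [hne, ae_restrict_mem measurableSet_Icc] with θ h1 hθ
        simp only [ψ, Set.indicator_of_mem hθ]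
        rw [← mul_pow, mul_sub, mul_inv_cancel₀ h1]
    _ = ∫ θ in Set.Icc 0 π, (ψ θ - q.eval (Real.cos θ)) ^ 2 ∂μ :=
        (hset _ _ measurableSet_Icc).symm
    _ ≤ ∫ θ in Set.Icc 0 π, (2 * (ψ θ - g θ) ^ 2 + 2 * (η / (4 * (M + 1)))) ∂μ := by
        refine integral_mono_of_nonneg (ae_of_all _ fun θ => sq_nonneg _) hi2.integrableOn ?_
        filter_upwards [ae_restrict_mem measurableSet_Icc] with θ hθ
        have h3 := hq (Real.cos θ) ⟨Real.neg_one_le_cos θ, Real.cos_le_one θ⟩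
        rw [Real.arccos_cos hθ.1 hθ.2] at h3
        have h4 : (q.eval (Real.cos θ) - g θ) ^ 2 ≤ η / (4 * (M + 1)) := by
          rw [← sq_abs, ← Real.sq_sqrt (show 0 ≤ η / (4 * (M + 1)) by positivity)]
          exact pow_le_pow_left₀ (abs_nonneg _) h3.le 2
        nlinarith [sq_nonneg (ψ θ - g θ + (q.eval (Real.cos θ) - g θ))]
    _ ≤ ∫ θ, (2 * (ψ θ - g θ) ^ 2 + 2 * (η / (4 * (M + 1)))) ∂μ :=
        setIntegral_le_integral hi2 (ae_of_all _ fun θ => by positivity)
    _ = 2 * ∫ θ, (ψ θ - g θ) ^ 2 ∂μ + M * (2 * (η / (4 * (M + 1)))) := by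
        rw [integral_add (hi.const_mul 2) (integrable_const _), integral_const_mul, integral_const,
          smul_eq_mul]
    _ ≤ η := by
        have h5 : M * (2 * (η / (4 * (M + 1)))) ≤ η / 2 := by
          rw [show M * (2 * (η / (4 * (M + 1)))) = η / 2 * (M / (M + 1)) by field_simp; ring]
          exact mul_le_of_le_one_right (by positivity) ((div_le_one (by positivity)).2 (by linarith))
        linarith

end Pool.Agent.MP_f6b137_pr.H5
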